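import Pool.Agent.H93.EO.GenOf

/-!
Kept text (replaced on 2026-12-04 by Results/MP_2b6f50_lc/MeagerIdeals). MP_2b6f50_lc (the `E₁` conjecture): Borel equivalence relations which are idealistic through category
ideals, that is, whose classes carry second countable T0 Baire topologies depending in a Borel way on
the point, are Borel reducible to a Polish group action.
-/

namespace Pool.Agent.H93.EO.Keep.CategoryIdeals

open Set Topology

/-- Let `F` be a Borel equivalence relation on a standard Borel space `X`. Suppose every class `q`
carries a T0 topology `τ q` which is a Baire space, such that there are sets `O n x` (`n : ℕ`), with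
`{(x, y) | y ∈ O n x}` Borel, whose traces on the class of `x` form a base of its topology, and Borel
functions `e i : X → X` such that the points `e i x` in the class of `x` are dense there. Then there
are a Polish group `G`, a continuous action of `G` on a Polish space `Z` and a Borel map `f : X → Z`
with `F x x'` iff `f x` and `f x'` lie in the same orbit. -/
theorem result (X : Type) [MeasurableSpace X] [StandardBorelSpace X] (F : Setoid X)
    (hF : MeasurableSet {p : X × X | F p.1 p.2})
    (τ : ∀ q : Quotient F, TopologicalSpace {y : X // Quotient.mk F y = q})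
    (hT : ∀ q, @T0Space _ (τ q)) (hB : ∀ q, @BaireSpace _ (τ q))
    (O : ℕ → X → Set X) (hO : ∀ n, MeasurableSet {p : X × X | p.2 ∈ O n p.1})
    (hbase : ∀ x, @TopologicalSpace.IsTopologicalBasis _ (τ (Quotient.mk F x))
      (range fun n => {y | y.1 ∈ O n x}))
    (e : ℕ → X → X) (he : ∀ i, Measurable (e i))
    (hd : ∀ x, @Dense _ (τ (Quotient.mk F x)) {y | ∃ i, y.1 = e i x}) :
    ∃ (G Z : Type) (_ : TopologicalSpace G) (_ : Group G) (_ : IsTopologicalGroup G)
      (_ : PolishSpace G) (_ : TopologicalSpace Z) (_ : PolishSpace Z) (_ : MeasurableSpace Z)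
      (_ : BorelSpace Z) (_ : MulAction G Z) (_ : ContinuousSMul G Z) (f : X → Z),
      Measurable f ∧ ∀ x x' : X, F x x' ↔ ∃ g : G, g • f x = f x' :=
  Pool.Agent.H93.EO.main_cat
    { τ := τ, t0 := hT, baire := hB, O := O, e := e, mF := hF, mO := hO, base := hbase,
      me := he, dense := hd }

end Pool.Agent.H93.EO.Keep.CategoryIdeals
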